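import Mathlib

/-!
# The configuration of sixteen vectors and one extra vector, for every odd divisor

For an odd `n = 2 t + 1 ≥ 3`, `M ≥ 1` and `N = n M` the sixteen vectors below, each taken
`N - 1` times, and the extra vector `(0,0,0,M)` have no subsequence of length `N` whose sum is
divisible by `N`.
-/

set_option autoImplicit false

namespace Pool.Agent.Helper93.BK

theorem nod {N v : ℤ} (h : N ∣ v) (h0 : 0 < v) (h1 : v < N) : False :=
  absurd (Int.le_of_dvd h0 h) (by omega)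

theorem dv2 {N v : ℤ} (h : N ∣ v) (h0 : 0 ≤ v) (h1 : v < 2 * N) : v = 0 ∨ v = N := by
  by_contra hc
  push Not at hc
  obtain ⟨h2, h3⟩ := hc
  rcases lt_trichotomy v N with h4 | h4 | h4
  · exact nod h (by omega) h4
  · exact h3 h4
  · exact nod (N := N) (v := v - N) (dvd_sub_self_right.mpr h) (by omega) (by omega)

/-- The arithmetic core. -/
theorem core (t M N a0 a1 b c d0 d1 d2 d3 e0 e1 e2 e3 f0 f1 f2 f3 y : ℤ)
    (ht : 1 ≤ t) (hM : 1 ≤ M) (hN : N = (2 * t + 1) * M)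
    (ha0 : 0 ≤ a0) (ha0' : a0 < N) (ha1 : 0 ≤ a1) (ha1' : a1 < N)
    (hb : 0 ≤ b) (hb' : b < N) (hc : 0 ≤ c) (hc' : c < N)
    (hd0 : 0 ≤ d0) (hd0' : d0 < N) (hd1 : 0 ≤ d1) (hd1' : d1 < N)
    (hd2 : 0 ≤ d2) (hd2' : d2 < N) (hd3 : 0 ≤ d3) (hd3' : d3 < N)
    (he0 : 0 ≤ e0) (he0' : e0 < N) (he1 : 0 ≤ e1) (he1' : e1 < N)
    (he2 : 0 ≤ e2) (he2' : e2 < N) (he3 : 0 ≤ e3) (he3' : e3 < N)
    (hf0 : 0 ≤ f0) (hf0' : f0 < N) (hf1 : 0 ≤ f1) (hf1' : f1 < N)
    (hf2 : 0 ≤ f2) (hf2' : f2 < N) (hf3 : 0 ≤ f3) (hf3' : f3 < N)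
    (hy : 0 ≤ y) (hy' : y ≤ 1)
    (htot : a0 + a1 + b + c + d0 + d1 + d2 + d3 + e0 + e1 + e2 + e3 + f0 + f1 + f2 + f3 + y
      = N)
    (h1 : N ∣ 2 * b + (d0 + d1 + d2 + d3) + (f0 + f1 + f2 + f3))
    (h2 : N ∣ 2 * c + (e0 + e1 + e2 + e3) + (f0 + f1 + f2 + f3))
    (h3 : N ∣ a1 + (2 * t + 2) * b + c + ((2 * t + 1) * d1 + d2 + (2 * t + 2) * d3) + (e1 + e3)
      + ((t + 1) * f0 + (t + 2) * f1 + (t + 1) * f2 + (t + 2) * f3))
    (h4 : N ∣ - b + c - d1 - d3 + e2 + e3 + f2 + f3 + M * y) : False := by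
  have hMN : M < N := by nlinarith
  have hy2 : y = 0 ∨ y = 1 := by omega
  rcases dv2 h1 (by omega) (by omega) with hX | hX <;>
    rcases dv2 h2 (by omega) (by omega) with hY | hY
  · -- everything sits in the fibre over (0,0)
    obtain ⟨rfl, rfl, rfl, rfl, rfl, rfl, rfl, rfl, rfl⟩ : b = 0 ∧ d0 = 0 ∧ d1 = 0 ∧ d2 = 0 ∧
      d3 = 0 ∧ f0 = 0 ∧ f1 = 0 ∧ f2 = 0 ∧ f3 = 0 := by omega
    obtain ⟨rfl, rfl, rfl, rfl, rfl⟩ : c = 0 ∧ e0 = 0 ∧ e1 = 0 ∧ e2 = 0 ∧ e3 = 0 := by omega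
    have h5 : N ∣ a1 := by simpa using h3
    have h6 : a1 = 0 := by
      rcases dv2 h5 ha1 (by omega) with h | h <;> omega
    have h7 : y = 1 := by omega
    subst h7
    have h8 : N ∣ M := by simpa using h4
    exact nod h8 (by omega) hMN
  · -- fibres over (0,0), (0,1), (0,2)
    obtain ⟨rfl, rfl, rfl, rfl, rfl, rfl, rfl, rfl, rfl⟩ : b = 0 ∧ d0 = 0 ∧ d1 = 0 ∧ d2 = 0 ∧
      d3 = 0 ∧ f0 = 0 ∧ f1 = 0 ∧ f2 = 0 ∧ f3 = 0 := by omega
    have h5 : N ∣ a1 + c + e1 + e3 := by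
      obtain ⟨k, hk⟩ := h3
      exact ⟨k, by linear_combination hk⟩
    rcases hy2 with rfl | rfl
    · have h6 : N ∣ c + e2 + e3 := by
        obtain ⟨k, hk⟩ := h4
        exact ⟨k, by linear_combination hk⟩
      rcases dv2 h5 (by omega) (by omega) with h | h <;>
        rcases dv2 h6 (by omega) (by omega) with h' | h' <;> omega
    · exact nod h5 (by omega) (by omega)
  · -- fibres over (0,0), (1,0), (2,0)
    obtain ⟨rfl, rfl, rfl, rfl, rfl, rfl, rfl, rfl, rfl⟩ : c = 0 ∧ e0 = 0 ∧ e1 = 0 ∧ e2 = 0 ∧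
      e3 = 0 ∧ f0 = 0 ∧ f1 = 0 ∧ f2 = 0 ∧ f3 = 0 := by omega
    rcases hy2 with rfl | rfl
    · have h6 : N ∣ b + d1 + d3 := by
        obtain ⟨k, hk⟩ := h4
        exact ⟨-k, by linear_combination -hk⟩
      rcases dv2 h6 (by omega) (by omega) with h | h
      · -- b = d1 = d3 = 0
        obtain ⟨rfl, rfl, rfl⟩ : b = 0 ∧ d1 = 0 ∧ d3 = 0 := by omega
        obtain rfl : a1 = 0 := by omega
        have h5 : N ∣ d2 := by
          obtain ⟨k, hk⟩ := h3
          exact ⟨k, by linear_combination hk⟩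
        rcases dv2 h5 (by omega) (by omega) with h' | h' <;> omega
      · obtain rfl : b = 0 := by omega
        obtain rfl : a1 = 0 := by omega
        obtain rfl : d2 = 0 := by omega
        have h5 : N ∣ d3 := by
          obtain ⟨k, hk⟩ := h3
          exact ⟨k - (2 * t + 1), by linear_combination hk - (2 * t + 1) * h⟩
        rcases dv2 h5 (by omega) (by omega) with h' | h' <;> omega
    · -- y = 1
      have h6 : N ∣ M - (b + d1 + d3) := by
        obtain ⟨k, hk⟩ := h4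
        exact ⟨k, by linear_combination hk⟩
      have h7 : b + d1 + d3 = M := by
        rcases lt_trichotomy (b + d1 + d3) M with h | h | h
        · exact (nod h6 (by omega) (by omega)).elim
        · exact h
        · have h8 : N ∣ (b + d1 + d3) - M := by
            obtain ⟨k, hk⟩ := h6
            exact ⟨-k, by linear_combination -hk⟩
          exact (nod h8 (by omega) (by omega)).elim
      have h5 : N ∣ a1 + b + d2 + d3 := by
        obtain ⟨k, hk⟩ := h3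
        exact ⟨k - 1, by linear_combination hk - (2 * t + 1) * h7 + hN⟩
      exact nod h5 (by omega) (by omega)
  · -- fibres over (2,0), (1,1), (0,2)
    obtain ⟨rfl, rfl, rfl, rfl, rfl, rfl, rfl, rfl, rfl, rfl, rfl⟩ : a0 = 0 ∧ a1 = 0 ∧ y = 0 ∧
      d0 = 0 ∧ d1 = 0 ∧ d2 = 0 ∧ d3 = 0 ∧ e0 = 0 ∧ e1 = 0 ∧ e2 = 0 ∧ e3 = 0 := by omega
    have hbc : c = b := by omega
    subst hbc
    have h6 : N ∣ f2 + f3 := by
      obtain ⟨k, hk⟩ := h4
      exact ⟨k, by linear_combination hk⟩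
    have h5 : N ∣ c + f1 + f3 := by
      obtain ⟨k, hk⟩ := h3
      exact ⟨k - (t + 1), by linear_combination hk - (t + 1) * hX⟩
    rcases dv2 h5 (by omega) (by omega) with h | h <;>
      rcases dv2 h6 (by omega) (by omega) with h' | h' <;> omega

end Pool.Agent.Helper93.BK
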