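import Pool.Agent.Helper93.BK.Mult

/-!
# The Erdős–Ginzburg–Ziv constant
-/

set_option autoImplicit false

namespace Pool.Agent.Helper93.BK

/-- Every sequence over `G` of length at least `l` has a zero-sum subsequence of length exactly
`exp(G)`.  Sequences are multisets, subsequences are sub-multisets. -/
def EveryLongSequence (G : Type) [AddCommGroup G] (l : ℕ) : Prop :=
  ∀ S : Multiset G, l ≤ S.card → ∃ T ≤ S, T.card = AddMonoid.exponent G ∧ T.sum = 0

/-- The Erdős–Ginzburg–Ziv constant `s(G)`: the smallest positive integer `l` such that every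
sequence over `G` of length at least `l` has a zero-sum subsequence of length `exp(G)`. -/
noncomputable def egz (G : Type) [AddCommGroup G] : ℕ :=
  sInf {l : ℕ | 0 < l ∧ EveryLongSequence G l}

/-- The constant exists for every finite abelian group. -/
theorem exists_egz (G : Type) [AddCommGroup G] [Finite G] :
    ∃ l, 0 < l ∧ EveryLongSequence G l := by
  classical
  have := Fintype.ofFinite G
  refine ⟨Fintype.card G * AddMonoid.exponent G + 1, Nat.succ_pos _, fun S hS => ?_⟩
  have h1 : ∃ g, AddMonoid.exponent G ≤ S.count g := by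
    by_contra hc
    push Not at hc
    have h2 : ∑ g : G, S.count g = S.card := Multiset.sum_count_eq_card (by simp)
    have h3 : ∑ g : G, S.count g ≤ ∑ _g : G, AddMonoid.exponent G :=
      Finset.sum_le_sum fun g _ => (hc g).le
    rw [Finset.sum_const, smul_eq_mul, Finset.card_univ] at h3
    omega
  obtain ⟨g, hg⟩ := h1
  refine ⟨Multiset.replicate (AddMonoid.exponent G) g, Multiset.le_count_iff_replicate_le.mp hg,
    Multiset.card_replicate _ _, ?_⟩
  rw [Multiset.sum_replicate]
  exact AddMonoid.exponent_nsmul_eq_zero g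

theorem egz_mem (G : Type) [AddCommGroup G] [Finite G] :
    0 < egz G ∧ EveryLongSequence G (egz G) :=
  Nat.sInf_mem (exists_egz G)

theorem lt_egz {G : Type} [AddCommGroup G] [Finite G] {L : ℕ}
    (h : ∃ S : Multiset G, S.card = L ∧ ∀ T ≤ S, T.card = AddMonoid.exponent G → T.sum ≠ 0) :
    L < egz G := by
  by_contra hc
  obtain ⟨S, h1, h2⟩ := h
  obtain ⟨T, h3, h4, h5⟩ := (egz_mem G).2 S (by omega)
  exact h2 T h3 h4 h5

theorem egz_le {G : Type} [AddCommGroup G] {l : ℕ} (h0 : 0 < l) (h : EveryLongSequence G l) :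
    egz G ≤ l :=
  Nat.sInf_le ⟨h0, h⟩

theorem exponent_pow (N r : ℕ) (hr : 0 < r) : AddMonoid.exponent (Fin r → ZMod N) = N := by
  have : Nonempty (Fin r) := ⟨⟨0, hr⟩⟩
  apply Nat.dvd_antisymm
  · apply AddMonoid.exponent_dvd_of_forall_nsmul_eq_zero
    intro g
    funext i
    simp
  · have h1 : AddMonoid.exponent (ZMod N) ∣ AddMonoid.exponent (Fin r → ZMod N) := by
      apply AddMonoid.exponent_dvd_of_forall_nsmul_eq_zero
      intro g
      have := AddMonoid.exponent_nsmul_eq_zero (fun _ : Fin r => g)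
      exact congrFun this ⟨0, hr⟩
    rwa [ZMod.exponent] at h1

/-- Reduction modulo `N`. -/
def red (N r : ℕ) (v : Fin r → ℤ) : Fin r → ZMod N := fun i => (v i : ZMod N)

theorem sum_red (N r : ℕ) (S : Multiset (Fin r → ℤ)) :
    (S.map (red N r)).sum = red N r S.sum := by
  induction S using Multiset.induction_on with
  | empty => funext i; simp [red]
  | cons a S ih =>
    rw [Multiset.map_cons, Multiset.sum_cons, Multiset.sum_cons, ih]
    funext i
    simp [red]

theorem red_eq_zero (N r : ℕ) (v : Fin r → ℤ) : red N r v = 0 ↔ ∀ i, (N : ℤ) ∣ v i := by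
  constructor
  · intro h i
    exact (ZMod.intCast_zmod_eq_zero_iff_dvd _ N).mp (congrFun h i)
  · intro h
    funext i
    exact (ZMod.intCast_zmod_eq_zero_iff_dvd _ N).mpr (h i)

theorem lt_egz_of_free {N r L : ℕ} (hN : 0 < N) (hr : 0 < r)
    (h : ∃ S, Free N r S ∧ S.card = L) : L < egz (Fin r → ZMod N) := by
  have : NeZero N := ⟨hN.ne'⟩
  obtain ⟨S, h1, h2⟩ := h
  refine lt_egz ⟨S.map (red N r), by rw [Multiset.card_map, h2], ?_⟩
  intro T hT hc hs
  obtain ⟨U, hU, rfl⟩ := exists_le_of_le_map _ _ _ hT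
  rw [Multiset.card_map, exponent_pow N r hr] at hc
  rw [sum_red, red_eq_zero] at hs
  exact h1 U hU hc hs

theorem egz_two_pow (r k : ℕ) (hr : 0 < r) :
    egz (Fin r → ZMod (2 ^ k)) = 2 ^ r * (2 ^ k - 1) + 1 := by
  apply le_antisymm
  · apply egz_le (Nat.succ_pos _)
    intro S hS
    set φ : (Fin r → ZMod (2 ^ k)) → (Fin r → ℤ) := fun v i => ((v i).val : ℤ) with hφ
    have hφ' : ∀ v, red (2 ^ k) r (φ v) = v := by
      intro v
      funext i
      simp [red, hφ]
    obtain ⟨T, hT, hc, hs⟩ := upper r k (S.map φ) (by rw [Multiset.card_map]; exact hS)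
    obtain ⟨U, hU, rfl⟩ := exists_le_of_le_map _ _ _ hT
    refine ⟨U, hU, ?_, ?_⟩
    · rw [exponent_pow _ r hr]
      rw [Multiset.card_map] at hc
      exact hc
    · have h1 := sum_red (2 ^ k) r (U.map φ)
      rw [Multiset.map_map] at h1
      have h2 : U.map (red (2 ^ k) r ∘ φ) = U := by
        conv_rhs => rw [← Multiset.map_id U]
        exact Multiset.map_congr rfl fun v _ => hφ' v
      rw [h2] at h1
      rw [h1, red_eq_zero]
      exact hs
  · exact lt_egz_of_free (by positivity) hr (exists_free _ r (by positivity))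

/-- Numbers with an odd divisor greater than one. -/
theorem exists_odd (n : ℕ) (hn : 0 < n) (h : ¬ ∃ k, n = 2 ^ k) :
    ∃ t M, 1 ≤ t ∧ 1 ≤ M ∧ n = (2 * t + 1) * M := by
  obtain ⟨k, m, hm, rfl⟩ := Nat.exists_eq_two_pow_mul_odd hn.ne'
  obtain ⟨t, rfl⟩ := hm
  refine ⟨t, 2 ^ k, ?_, Nat.one_le_two_pow, by ring⟩
  by_contra ht
  have : t = 0 := by omega
  subst this
  exact h ⟨k, by simp⟩

end Pool.Agent.Helper93.BK
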