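import Pool.Agent.Helper93.BK.Core

/-!
# Sequences as multisets
-/

set_option autoImplicit false

namespace Pool.Agent.Helper93.BK

open Multiset

/-- A sub-multiset of an image is the image of a sub-multiset. -/
theorem exists_le_of_le_map {α β : Type*} (f : α → β) (s : Multiset α) (t : Multiset β)
    (h : t ≤ s.map f) : ∃ u ≤ s, u.map f = t := by
  induction s using Quotient.inductionOn with
  | _ l =>
  induction t using Quotient.inductionOn with
  | _ l' =>
  obtain ⟨l1, h1, h2⟩ := (h : List.Subperm l' (l.map f))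
  obtain ⟨l2, h3, rfl⟩ := List.sublist_map_iff.mp h2
  refine ⟨(l2 : Multiset α), ?_, ?_⟩
  · exact (List.Sublist.subperm h3)
  · exact Quotient.sound h1

/-- A sub-multiset of a sum is a sum of sub-multisets. -/
theorem exists_add_of_le_add {α : Type*} (s1 s2 t : Multiset α) (h : t ≤ s1 + s2) :
    ∃ t1 ≤ s1, ∃ t2 ≤ s2, t1 + t2 = t := by
  classical
  refine ⟨t ∩ s1, Multiset.inter_le_right, t - t ∩ s1, ?_, ?_⟩
  · rw [Multiset.le_iff_count] at h ⊢
    intro a
    have := h a
    rw [Multiset.count_add] at this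
    rw [Multiset.count_sub, Multiset.count_inter]
    omega
  · exact add_tsub_cancel_of_le Multiset.inter_le_left

/-- Coordinates of a sum of vectors. -/
theorem sum_apply' {ι : Type*} {A : Type*} [AddCommMonoid A] (S : Multiset (ι → A)) (k : ι) :
    S.sum k = (S.map (fun v => v k)).sum := by
  induction S using Multiset.induction_on with
  | empty => simp
  | cons a S ih => simp [ih]

/-- No subsequence of length `N` has a sum divisible by `N`. -/
def Free (N r : ℕ) (S : Multiset (Fin r → ℤ)) : Prop :=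
  ∀ T ≤ S, T.card = N → ¬ ∀ k, (N : ℤ) ∣ T.sum k

/-- The first configuration: all in dimension `0`. -/
theorem free_zero (N : ℕ) (hN : 0 < N) : Free N 0 (replicate (N - 1) (fun _ => 0)) := by
  intro T hT hc
  have := Multiset.card_le_card hT
  rw [card_replicate] at this
  omega

/-- Doubling. -/
def dbl {r : ℕ} (S : Multiset (Fin r → ℤ)) : Multiset (Fin (r + 1) → ℤ) :=
  S.map (fun v => Fin.cons 0 v) + S.map (fun v => Fin.cons 1 v)

theorem card_dbl {r : ℕ} (S : Multiset (Fin r → ℤ)) : (dbl S).card = 2 * S.card := by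
  simp [dbl]
  ring

theorem sum_cons_zero {r : ℕ} (x : ℤ) (S : Multiset (Fin r → ℤ)) :
    (S.map (fun v => (Fin.cons x v : Fin (r + 1) → ℤ))).sum 0 = S.card * x := by
  rw [sum_apply', Multiset.map_map]
  simp

theorem sum_cons_succ {r : ℕ} (x : ℤ) (S : Multiset (Fin r → ℤ)) (k : Fin r) :
    (S.map (fun v => (Fin.cons x v : Fin (r + 1) → ℤ))).sum k.succ = S.sum k := by
  rw [sum_apply', sum_apply', Multiset.map_map]
  simp

theorem free_dbl {N r : ℕ} (S : Multiset (Fin r → ℤ)) (h : Free N r S) :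
    Free N (r + 1) (dbl S) := by
  intro T hT hc hs
  obtain ⟨T0, h0, T1, h1, rfl⟩ := exists_add_of_le_add _ _ _ hT
  obtain ⟨U0, hU0, rfl⟩ := exists_le_of_le_map _ _ _ h0
  obtain ⟨U1, hU1, rfl⟩ := exists_le_of_le_map _ _ _ h1
  rw [card_add, card_map, card_map] at hc
  have hz := hs 0
  rw [Multiset.sum_add, Pi.add_apply, sum_cons_zero, sum_cons_zero, mul_zero, mul_one,
    zero_add] at hz
  have hz' : N ∣ U1.card := by exact_mod_cast hz
  have hsucc : ∀ k : Fin r, (N : ℤ) ∣ U0.sum k + U1.sum k := by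
    intro k
    have := hs k.succ
    rwa [Multiset.sum_add, Pi.add_apply, sum_cons_succ, sum_cons_succ] at this
  rcases Nat.eq_zero_or_pos U1.card with h2 | h2
  · rw [Multiset.card_eq_zero] at h2
    subst h2
    refine h U0 hU0 (by simpa using hc) (fun k => ?_)
    simpa using hsucc k
  · have h3 : U1.card = N := le_antisymm (by omega) (Nat.le_of_dvd h2 hz')
    have h4 : U0 = 0 := by
      rw [← Multiset.card_eq_zero]
      omega
    subst h4
    refine h U1 hU1 h3 (fun k => ?_)
    simpa using hsucc k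

/-- Iterated doubling: from length `c` in dimension `r` to length `2 ^ j c` in dimension
`r + j`. -/
theorem free_iter {N r c : ℕ} (h : ∃ S, Free N r S ∧ S.card = c) (j : ℕ) :
    ∃ S, Free N (r + j) S ∧ S.card = 2 ^ j * c := by
  induction j with
  | zero => simpa using h
  | succ j ih =>
    obtain ⟨S, h1, h2⟩ := ih
    exact ⟨dbl S, free_dbl S h1, by rw [card_dbl, h2, pow_succ]; ring⟩

/-- The seventeen vectors. -/
def vec (t M : ℤ) : Fin 17 → Fin 4 → ℤ :=
  ![![0, 0, 0, 0], ![0, 0, 1, 0], ![2, 0, 2 * t + 2, -1], ![0, 2, 1, 1],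
    ![1, 0, 0, 0], ![1, 0, 2 * t + 1, -1], ![1, 0, 1, 0], ![1, 0, 2 * t + 2, -1],
    ![0, 1, 0, 0], ![0, 1, 1, 0], ![0, 1, 0, 1], ![0, 1, 1, 1],
    ![1, 1, t + 1, 0], ![1, 1, t + 2, 0], ![1, 1, t + 1, 1], ![1, 1, t + 2, 1],
    ![0, 0, 0, M]]

/-- The multiplicities. -/
def mul (N : ℕ) (j : Fin 17) : ℕ := if j = 16 then 1 else N - 1

/-- The index multiset. -/
def idx (N : ℕ) : Multiset (Fin 17) := ∑ j : Fin 17, replicate (mul N j) j

theorem count_idx (N : ℕ) (j : Fin 17) : (idx N).count j = mul N j := by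
  rw [idx, Multiset.count_sum']
  simp [Multiset.count_replicate]

theorem card_idx (N : ℕ) : (idx N).card = 16 * (N - 1) + 1 := by
  rw [idx, Multiset.card_sum]
  simp only [card_replicate, Fin.sum_univ_succ, mul]
  simp [Fin.ext_iff]
  ring

/-- The seventeen vectors with these multiplicities have no subsequence of length `N` with sum
divisible by `N`. -/
theorem free_four (t M N : ℕ) (ht : 1 ≤ t) (hM : 1 ≤ M) (hN : N = (2 * t + 1) * M) :
    Free N 4 ((idx N).map (vec t M)) := by
  have hN0 : 0 < N := by rw [hN]; positivity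
  intro T hT hc hs
  obtain ⟨V, hV, rfl⟩ := exists_le_of_le_map _ _ _ hT
  rw [card_map] at hc
  have hcount : ∀ j, V.count j ≤ mul N j := fun j => by
    rw [← count_idx]
    exact Multiset.count_le_of_le j hV
  have hlt : ∀ j : Fin 17, j ≠ 16 → ((V.count j : ℕ) : ℤ) < N := by
    intro j hj
    have := hcount j
    rw [mul, if_neg hj] at this
    have h2 : V.count j < N := by omega
    exact_mod_cast h2
  have h16 : ((V.count 16 : ℕ) : ℤ) ≤ 1 := by
    have := hcount 16
    rw [mul, if_pos rfl] at this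
    exact_mod_cast this
  have hnn : ∀ j, (0 : ℤ) ≤ (V.count j : ℕ) := fun j => Int.natCast_nonneg _
  have htot : ∑ j : Fin 17, ((V.count j : ℕ) : ℤ) = N := by
    have h1 : ∑ j : Fin 17, V.count j = V.card := Multiset.sum_count_eq_card (by simp)
    rw [hc] at h1
    exact_mod_cast h1
  have hsum : ∀ k, (V.map (vec t M)).sum k = ∑ j : Fin 17, ((V.count j : ℕ) : ℤ) * vec t M j k := by
    intro k
    rw [Finset.sum_multiset_map_count]
    rw [Finset.sum_apply]
    rw [Finset.sum_subset (Finset.subset_univ _)]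
    · exact Finset.sum_congr rfl fun j _ => by simp
    · intro j _ hj
      rw [Multiset.mem_toFinset, ← Multiset.count_eq_zero] at hj
      simp [hj]
  have h1 := hs 0
  have h2 := hs 1
  have h3 := hs 2
  have h4 := hs 3
  rw [hsum] at h1 h2 h3 h4
  simp only [Fin.sum_univ_succ, vec] at h1 h2 h3 h4 htot
  simp at h1 h2 h3 h4 htot
  have ht' : (1 : ℤ) ≤ t := by exact_mod_cast ht
  have hM' : (1 : ℤ) ≤ M := by exact_mod_cast hM
  have hN' : (N : ℤ) = (2 * t + 1) * M := by exact_mod_cast hN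
  obtain ⟨k1, hk1⟩ := h1
  obtain ⟨k2, hk2⟩ := h2
  obtain ⟨k3, hk3⟩ := h3
  obtain ⟨k4, hk4⟩ := h4
  exact core t M N (V.count 0) (V.count 1) (V.count 2) (V.count 3) (V.count 4) (V.count 5)
    (V.count 6) (V.count 7) (V.count 8) (V.count 9) (V.count 10) (V.count 11) (V.count 12)
    (V.count 13) (V.count 14) (V.count 15) (V.count 16) ht' hM' hN'
    (hnn 0) (hlt 0 (by decide)) (hnn 1) (hlt 1 (by decide)) (hnn 2) (hlt 2 (by decide))
    (hnn 3) (hlt 3 (by decide)) (hnn 4) (hlt 4 (by decide)) (hnn 5) (hlt 5 (by decide))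
    (hnn 6) (hlt 6 (by decide)) (hnn 7) (hlt 7 (by decide)) (hnn 8) (hlt 8 (by decide))
    (hnn 9) (hlt 9 (by decide)) (hnn 10) (hlt 10 (by decide)) (hnn 11) (hlt 11 (by decide))
    (hnn 12) (hlt 12 (by decide)) (hnn 13) (hlt 13 (by decide)) (hnn 14) (hlt 14 (by decide))
    (hnn 15) (hlt 15 (by decide)) (hnn 16) h16 (by linear_combination htot)
    ⟨k1, by linear_combination hk1⟩ ⟨k2, by linear_combination hk2⟩
    ⟨k3, by linear_combination hk3⟩ ⟨k4, by linear_combination hk4⟩

/-- A sequence of length `2 ^ r (N - 1)` without a zero-sum subsequence of length `N`. -/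
theorem exists_free (N r : ℕ) (hN : 0 < N) :
    ∃ S, Free N r S ∧ S.card = 2 ^ r * (N - 1) := by
  have h := free_iter (N := N) (r := 0) (c := N - 1)
    ⟨replicate (N - 1) (fun _ => 0), free_zero N hN, card_replicate _ _⟩ r
  rw [Nat.zero_add] at h
  exact h

/-- If `N` has an odd divisor greater than one, a sequence of length
`2 ^ r (N - 1) + 2 ^ (r - 4)` without a zero-sum subsequence of length `N`, `r ≥ 4`. -/
theorem exists_free' (t M r : ℕ) (ht : 1 ≤ t) (hM : 1 ≤ M) (hr : 4 ≤ r) :
    ∃ S, Free ((2 * t + 1) * M) r S ∧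
      S.card = 2 ^ r * ((2 * t + 1) * M - 1) + 2 ^ (r - 4) := by
  obtain ⟨j, rfl⟩ := Nat.exists_eq_add_of_le hr
  obtain ⟨S, h1, h2⟩ := free_iter (j := j)
    ⟨_, free_four t M _ ht hM rfl, by rw [card_map, card_idx]⟩
  refine ⟨S, h1, ?_⟩
  rw [h2, Nat.add_sub_cancel_left, pow_add]
  ring

/-- A sequence with more than `2 ^ r` terms has two terms congruent modulo `2`. -/
theorem exists_pair {r : ℕ} (S : Multiset (Fin r → ℤ)) (hS : 2 ^ r + 1 ≤ S.card) :
    ∃ x y, ∃ R, x ::ₘ y ::ₘ R = S ∧ ∀ k, (2 : ℤ) ∣ x k + y k := by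
  classical
  set φ : (Fin r → ℤ) → (Fin r → ZMod 2) := fun v k => (v k : ZMod 2) with hφ
  have h1 : ¬ (S.map φ).Nodup := by
    intro h
    have h2 := Multiset.toFinset_card_of_nodup h
    have h3 := Finset.card_le_univ (S.map φ).toFinset
    rw [h2, card_map] at h3
    simp at h3
    omega
  rw [Multiset.nodup_iff_le] at h1
  push Not at h1
  obtain ⟨c, hc⟩ := h1
  obtain ⟨u, hu, huc⟩ := exists_le_of_le_map _ _ _ hc
  have hcard : u.card = 2 := by
    have := congrArg Multiset.card huc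
    simpa using this
  obtain ⟨x, y, rfl⟩ := Multiset.card_eq_two.mp hcard
  obtain ⟨R, hR⟩ := Multiset.le_iff_exists_add.mp hu
  refine ⟨x, y, R, ?_, fun k => ?_⟩
  · rw [hR]
    simp
  · have h4 : ∀ v ∈ ({x, y} : Multiset (Fin r → ℤ)), φ v = c := by
      intro v hv
      have h5 : φ v ∈ Multiset.map φ {x, y} := Multiset.mem_map_of_mem φ hv
      rw [huc] at h5
      simpa using h5
    have hx := congrFun (h4 x (by simp)) k
    have hy := congrFun (h4 y (by simp)) k
    have h6 : ((x k + y k : ℤ) : ZMod 2) = 0 := by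
      push_cast
      simp only [hφ] at hx hy
      rw [hx, hy]
      exact CharTwo.add_self_eq_zero _
    exact (ZMod.intCast_zmod_eq_zero_iff_dvd _ 2).mp h6

/-- Disjoint pairs of terms congruent modulo `2`. -/
theorem exists_pairs {r : ℕ} (m : ℕ) : ∀ (S : Multiset (Fin r → ℤ)),
    2 ^ r + 2 * m ≤ S.card + 1 → ∃ P : Multiset ((Fin r → ℤ) × (Fin r → ℤ)), P.card = m ∧
      P.map Prod.fst + P.map Prod.snd ≤ S ∧ ∀ p ∈ P, ∀ k, (2 : ℤ) ∣ p.1 k + p.2 k := by
  induction m with
  | zero =>
    intro S _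
    exact ⟨0, rfl, by simp, by simp⟩
  | succ m ih =>
    intro S hS
    obtain ⟨x, y, R, rfl, hxy⟩ := exists_pair S (by omega)
    obtain ⟨P, h1, h2, h3⟩ := ih R (by simp at hS; omega)
    refine ⟨(x, y) ::ₘ P, by simp [h1], ?_, ?_⟩
    · rw [Multiset.map_cons, Multiset.map_cons, Multiset.cons_add, Multiset.add_cons]
      exact Multiset.cons_le_cons _ (Multiset.cons_le_cons _ h2)
    · intro p hp
      rw [Multiset.mem_cons] at hp
      rcases hp with rfl | hp
      · exact hxy
      · exact h3 p hp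

/-- Harborth's upper bound for powers of two. -/
theorem upper (r k : ℕ) : ∀ S : Multiset (Fin r → ℤ), 2 ^ r * (2 ^ k - 1) + 1 ≤ S.card →
    ∃ T ≤ S, T.card = 2 ^ k ∧ ∀ i, ((2 ^ k : ℕ) : ℤ) ∣ T.sum i := by
  induction k with
  | zero =>
    intro S hS
    obtain ⟨x, hx⟩ := Multiset.card_pos_iff_exists_mem.mp (by omega : 0 < S.card)
    exact ⟨{x}, by simpa using hx, by simp, by simp⟩
  | succ k ih =>
    intro S hS
    have hk : 1 ≤ 2 ^ k := Nat.one_le_two_pow
    have hr : 1 ≤ 2 ^ r := Nat.one_le_two_pow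
    obtain ⟨N, hN⟩ : ∃ N, 2 ^ k = N + 1 := ⟨2 ^ k - 1, by omega⟩
    obtain ⟨P, h1, h2, h3⟩ := exists_pairs (2 ^ r * (2 ^ k - 1) + 1) S (by
      rw [pow_succ, hN] at hS
      rw [hN]
      have h4 : (N + 1) * 2 - 1 = 2 * N + 1 := by omega
      rw [h4] at hS
      have h5 : N + 1 - 1 = N := by omega
      rw [h5]
      nlinarith)
    set g : (Fin r → ℤ) × (Fin r → ℤ) → (Fin r → ℤ) := fun p i => (p.1 i + p.2 i) / 2 with hg
    obtain ⟨T, hT, hTc, hTs⟩ := ih (P.map g) (by rw [card_map, h1])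
    obtain ⟨P', hP', rfl⟩ := exists_le_of_le_map _ _ _ hT
    rw [card_map] at hTc
    refine ⟨P'.map Prod.fst + P'.map Prod.snd,
      (add_le_add (Multiset.map_le_map hP') (Multiset.map_le_map hP')).trans h2, ?_, fun i => ?_⟩
    · rw [card_add, card_map, card_map, hTc, pow_succ]
      ring
    · have h6 : (P'.map Prod.fst + P'.map Prod.snd).sum i = 2 * (P'.map g).sum i := by
        rw [Multiset.sum_add, Pi.add_apply, sum_apply', sum_apply', sum_apply', Multiset.map_map,
          Multiset.map_map, Multiset.map_map, ← Multiset.sum_map_add, ← Multiset.sum_map_mul_left]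
        refine congrArg Multiset.sum (Multiset.map_congr rfl fun p hp => ?_)
        have := h3 p (Multiset.mem_of_le hP' hp) i
        simp only [Function.comp, hg]
        omega
      rw [h6, pow_succ]
      push_cast
      have := hTs i
      push_cast at this
      rw [mul_comm ((2 : ℤ) ^ k) 2]
      exact mul_dvd_mul_left 2 this

end Pool.Agent.Helper93.BK
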